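import Pool.Agent.Run7.h800.RG.Stm2

/-!
# Project RG (helper800): piece UIL (discrete optional stopping)
-/

set_option autoImplicit false

namespace Run7.h118.RG

open Run7.h800.RG
open MeasureTheory ProbabilityTheory Set Filter Topology
open scoped ENNReal NNReal

/-- an integral over a set is the sum over the values of `κ` -/
theorem setInt_split {Ω : Type} [MeasurableSpace Ω] (P : Measure Ω) (f : Ω → ℝ)
    (hf : Integrable f P) (n : ℕ) (κ : Ω → ℕ) (hκ : ∀ ω, κ ω ≤ n)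
    (hm : ∀ k, MeasurableSet {ω | κ ω = k}) (S : Set Ω) (hS : ∀ k, MeasurableSet (S ∩ {ω | κ ω = k})) :
    ∫ ω in S, f ω ∂P = ∑ k ∈ Finset.range (n + 1), ∫ ω in S ∩ {ω | κ ω = k}, f ω ∂P := by
  have h1 : S = ⋃ k ∈ Finset.range (n + 1), S ∩ {ω | κ ω = k} := by
    ext ω
    simp only [mem_iUnion, Finset.mem_range, mem_inter_iff, mem_ofPred_eq, exists_prop]
    constructor
    · intro h
      exact ⟨κ ω, Nat.lt_succ_of_le (hκ ω), h, rfl⟩
    · rintro ⟨k, -, h, -⟩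
      exact h
  conv_lhs => rw [h1]
  refine integral_biUnion_finset _ (fun k _ => hS k) ?_ (fun k _ => hf.integrableOn)
  intro i _ j _ hij
  refine Set.disjoint_left.2 fun ω h2 h3 => hij ?_
  have h4 : κ ω = i := h2.2
  have h5 : κ ω = j := h3.2
  rw [← h4, h5]

theorem abs_le_of_martingale {Ω : Type} {m : MeasurableSpace Ω} (P : Measure Ω)
    [IsProbabilityMeasure P] (F : Filtration ℝ≥0 m) (Y : ℝ≥0 → Ω → ℝ) (hY : Martingale Y F P)
    (s t : ℝ≥0) (hst : s ≤ t) (G : Set Ω) (hG : MeasurableSet[F s] G) :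
    ∫ ω in G, |Y s ω| ∂P ≤ ∫ ω in G, |Y t ω| ∂P := by
  have hYs : Measurable[F s] (Y s) := (hY.1 s).measurable
  have hA : MeasurableSet[F s] {ω | 0 ≤ Y s ω} := hYs measurableSet_Ici
  have hGA : MeasurableSet[F s] (G ∩ {ω | 0 ≤ Y s ω}) := hG.inter hA
  have hGB : MeasurableSet[F s] (G ∩ {ω | 0 ≤ Y s ω}ᶜ) := hG.inter hA.compl
  have hAm : MeasurableSet {ω | 0 ≤ Y s ω} := F.le s _ hA
  have hGAm := F.le s _ hGA
  have hGBm := F.le s _ hGB
  have his : Integrable (fun ω => |Y s ω|) P := (hY.integrable s).abs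
  have hit : Integrable (fun ω => |Y t ω|) P := (hY.integrable t).abs
  have e1 : ∀ f : Ω → ℝ, Integrable f P → ∫ ω in G, f ω ∂P =
      (∫ ω in G ∩ {ω | 0 ≤ Y s ω}, f ω ∂P) + ∫ ω in G ∩ {ω | 0 ≤ Y s ω}ᶜ, f ω ∂P := by
    intro f hf
    have := integral_inter_add_diff (μ := P) (s := G) (t := {ω | 0 ≤ Y s ω}) hAm
      (hf.integrableOn (s := G))
    rw [← this]
    rfl
  rw [e1 _ his, e1 _ hit]
  refine add_le_add ?_ ?_
  · calc ∫ ω in G ∩ {ω | 0 ≤ Y s ω}, |Y s ω| ∂P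
        = ∫ ω in G ∩ {ω | 0 ≤ Y s ω}, Y s ω ∂P := by
          refine setIntegral_congr_fun hGAm fun ω hω => ?_
          exact abs_of_nonneg hω.2
      _ = ∫ ω in G ∩ {ω | 0 ≤ Y s ω}, Y t ω ∂P := hY.setIntegral_eq hst hGA
      _ ≤ ∫ ω in G ∩ {ω | 0 ≤ Y s ω}, |Y t ω| ∂P :=
          setIntegral_mono (hY.integrable t).integrableOn hit.integrableOn
            fun ω => le_abs_self _
  · calc ∫ ω in G ∩ {ω | 0 ≤ Y s ω}ᶜ, |Y s ω| ∂P
        = ∫ ω in G ∩ {ω | 0 ≤ Y s ω}ᶜ, -Y s ω ∂P := by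
          refine setIntegral_congr_fun hGBm fun ω hω => ?_
          have h1 : ¬ 0 ≤ Y s ω := hω.2
          exact abs_of_neg (not_le.1 h1)
      _ = -∫ ω in G ∩ {ω | 0 ≤ Y s ω}ᶜ, Y s ω ∂P := integral_neg _
      _ = -∫ ω in G ∩ {ω | 0 ≤ Y s ω}ᶜ, Y t ω ∂P := by rw [hY.setIntegral_eq hst hGB]
      _ = ∫ ω in G ∩ {ω | 0 ≤ Y s ω}ᶜ, -Y t ω ∂P := (integral_neg _).symm
      _ ≤ ∫ ω in G ∩ {ω | 0 ≤ Y s ω}ᶜ, |Y t ω| ∂P :=
          setIntegral_mono (hY.integrable t).neg.integrableOn hit.integrableOn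
            fun ω => neg_le_abs _

theorem t_UIL : S_UIL := by
  intro Ω m P hP F Y hY n u hu κ hκ hκm
  have hEq : ∀ k, MeasurableSet[F (u k)] {ω | κ ω = k} := by
    intro k
    rcases k with _ | k
    · have h1 : {ω | κ ω = 0} = {ω | κ ω ≤ 0} := by
        ext ω
        simp only [mem_ofPred_eq, nonpos_iff_eq_zero]
      rw [h1]
      exact hκm 0
    · have h1 : {ω | κ ω = k + 1} = {ω | κ ω ≤ k + 1} ∩ {ω | κ ω ≤ k}ᶜ := by
        ext ω
        simp only [mem_ofPred_eq, mem_inter_iff, mem_compl_iff]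
        omega
      rw [h1]
      exact (hκm (k + 1)).inter ((F.mono (hu (Nat.le_succ k)) _ (hκm k)).compl)
  have hEqm : ∀ k, MeasurableSet {ω | κ ω = k} := fun k => F.le _ _ (hEq k)
  have hsum : (fun ω => Y (u (κ ω)) ω) =
      fun ω => ∑ k ∈ Finset.range (n + 1), ({ω | κ ω = k}.indicator (Y (u k))) ω := by
    funext ω
    rw [Finset.sum_eq_single (κ ω)]
    · rw [indicator_of_mem (show ω ∈ {ω' | κ ω' = κ ω} from rfl)]
    · intro k _ hk
      have h1 : ω ∉ {ω' | κ ω' = k} := fun h => hk (show κ ω = k from h).symm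
      exact indicator_of_notMem h1 (Y (u k))
    · intro h
      exact absurd (Finset.mem_range.2 (Nat.lt_succ_of_le (hκ ω))) h
  have hint : Integrable (fun ω => Y (u (κ ω)) ω) P := by
    rw [hsum]
    exact integrable_finset_sum _ fun k _ => (hY.integrable (u k)).indicator (hEqm k)
  have hle : ∀ k ∈ Finset.range (n + 1), u k ≤ u n := fun k hk =>
    hu (Nat.lt_succ_iff.1 (Finset.mem_range.1 hk))
  refine ⟨hint, ?_, ?_⟩
  · intro E hE
    have hEm : ∀ k, MeasurableSet[F (u k)] (E ∩ {ω | κ ω = k}) := fun k =>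
      (F.mono (hu (Nat.zero_le k)) _ hE).inter (hEq k)
    have hEmm : ∀ k, MeasurableSet (E ∩ {ω | κ ω = k}) := fun k => F.le _ _ (hEm k)
    calc ∫ ω in E, Y (u (κ ω)) ω ∂P
        = ∑ k ∈ Finset.range (n + 1), ∫ ω in E ∩ {ω | κ ω = k}, Y (u (κ ω)) ω ∂P :=
          setInt_split P _ hint n κ hκ hEqm E hEmm
      _ = ∑ k ∈ Finset.range (n + 1), ∫ ω in E ∩ {ω | κ ω = k}, Y (u n) ω ∂P := by
          refine Finset.sum_congr rfl fun k hk => ?_
          rw [← hY.setIntegral_eq (hle k hk) (hEm k)]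
          refine setIntegral_congr_fun (hEmm k) fun ω hω => ?_
          have h1 : κ ω = k := hω.2
          show Y (u (κ ω)) ω = Y (u k) ω
          rw [h1]
      _ = ∫ ω in E, Y (u n) ω ∂P :=
          (setInt_split P _ (hY.integrable _) n κ hκ hEqm E hEmm).symm
      _ = ∫ ω in E, Y (u 0) ω ∂P := (hY.setIntegral_eq (hu (Nat.zero_le n)) hE).symm
  · intro C
    set B : Set Ω := {ω | C < |Y (u (κ ω)) ω|} with hB
    have hBk : ∀ k, B ∩ {ω | κ ω = k} = {ω | C < |Y (u k) ω|} ∩ {ω | κ ω = k} := by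
      intro k
      ext ω
      simp only [hB, mem_inter_iff, mem_ofPred_eq]
      constructor
      · rintro ⟨h1, h2⟩
        rw [h2] at h1
        exact ⟨h1, h2⟩
      · rintro ⟨h1, h2⟩
        refine ⟨?_, h2⟩
        rw [h2]
        exact h1
    have hBm : ∀ k, MeasurableSet[F (u k)] (B ∩ {ω | κ ω = k}) := by
      intro k
      rw [hBk k]
      have h1 : Measurable[F (u k)] fun ω => |Y (u k) ω| :=
        measurable_norm.comp (hY.1 (u k)).measurable
      exact (h1 measurableSet_Ioi).inter (hEq k)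
    have hBmm : ∀ k, MeasurableSet (B ∩ {ω | κ ω = k}) := fun k => F.le _ _ (hBm k)
    calc ∫ ω in B, |Y (u (κ ω)) ω| ∂P
        = ∑ k ∈ Finset.range (n + 1), ∫ ω in B ∩ {ω | κ ω = k}, |Y (u (κ ω)) ω| ∂P :=
          setInt_split P _ hint.abs n κ hκ hEqm B hBmm
      _ ≤ ∑ k ∈ Finset.range (n + 1), ∫ ω in B ∩ {ω | κ ω = k}, |Y (u n) ω| ∂P := by
          refine Finset.sum_le_sum fun k hk => ?_
          refine le_trans (le_of_eq ?_)
            (abs_le_of_martingale P F Y hY (u k) (u n) (hle k hk) _ (hBm k))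
          refine setIntegral_congr_fun (hBmm k) fun ω hω => ?_
          have h1 : κ ω = k := hω.2
          show |Y (u (κ ω)) ω| = |Y (u k) ω|
          rw [h1]
      _ = ∫ ω in B, |Y (u n) ω| ∂P :=
          (setInt_split P _ (hY.integrable _).abs n κ hκ hEqm B hBmm).symm

end Run7.h118.RG
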