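import Pool.Agent.Run7.h800.RG.Stm2

/-!
# Project RG (helper800): piece VIT (Vitali's convergence theorem)
-/

set_option autoImplicit false

namespace Run7.h118.RG

open Run7.h800.RG
open MeasureTheory ProbabilityTheory Set Filter Topology
open scoped ENNReal NNReal

theorem vit_ui {Ω : Type} {m : MeasurableSpace Ω} (P : Measure Ω) [IsProbabilityMeasure P]
    (Z : ℕ → Ω → ℝ) (X : Ω → ℝ) (hZ : ∀ j, Integrable (Z j) P) (hX : Integrable X P)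
    (h : ∀ (j : ℕ) (C : ℝ), ∫ ω in {ω | C < |Z j ω|}, |Z j ω| ∂P ≤
      ∫ ω in {ω | C < |Z j ω|}, |X ω| ∂P) : UniformIntegrable Z 1 P := by
  have h1 : ∀ j, ∫ ω, |Z j ω| ∂P ≤ ∫ ω, |X ω| ∂P := by
    intro j
    have h2 := h j (-1)
    have h3 : {ω | (-1 : ℝ) < |Z j ω|} = univ := by
      ext ω
      simp only [mem_ofPred_eq, mem_univ, iff_true]
      linarith [abs_nonneg (Z j ω)]
    rw [h3, Measure.restrict_univ] at h2
    exact h2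
  refine uniformIntegrable_of le_rfl ENNReal.one_ne_top (fun j => (hZ j).aestronglyMeasurable) ?_
  intro ε hε
  have hXl : ∫⁻ ω, ‖X ω‖ₑ ∂P ≠ ∞ := hX.2.ne
  obtain ⟨δ, hδ, hδs⟩ := exists_pos_setLIntegral_lt_of_measure_lt hXl
    (ε := ENNReal.ofReal ε) (by simpa using hε)
  have hI : 0 ≤ ∫ ω, |X ω| ∂P := integral_nonneg fun ω => abs_nonneg _
  obtain ⟨d, hd0, hdδ⟩ : ∃ d : ℝ, 0 < d ∧ ENNReal.ofReal d ≤ δ := by
    by_cases hδt : δ = ∞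
    · exact ⟨1, one_pos, by rw [hδt]; exact le_top⟩
    · exact ⟨δ.toReal, ENNReal.toReal_pos hδ.ne' hδt, by rw [ENNReal.ofReal_toReal hδt]⟩
  set K : ℝ := (∫ ω, |X ω| ∂P) / d + 1 with hK
  have hK0 : 0 < K := by
    have : 0 ≤ (∫ ω, |X ω| ∂P) / d := div_nonneg hI hd0.le
    linarith
  refine ⟨(K + 1).toNNReal, fun j => ?_⟩
  have hsmall : P {ω | K < |Z j ω|} < δ := by
    have h2 := mul_meas_ge_le_integral_of_nonneg (μ := P) (f := fun ω => |Z j ω|)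
      (ae_of_all _ fun ω => abs_nonneg _) (hZ j).abs K
    have h3 : K * P.real {ω | K ≤ |Z j ω|} ≤ ∫ ω, |X ω| ∂P := h2.trans (h1 j)
    have h4 : P.real {ω | K ≤ |Z j ω|} < d := by
      by_contra hcon
      push Not at hcon
      have h5 : K * d ≤ ∫ ω, |X ω| ∂P := (mul_le_mul_of_nonneg_left hcon hK0.le).trans h3
      have h6 : K * d = (∫ ω, |X ω| ∂P) + d := by
        rw [hK]
        field_simp
      linarith
    have h5 : P {ω | K < |Z j ω|} ≤ P {ω | K ≤ |Z j ω|} := by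
      refine measure_mono fun ω hω => ?_
      have h6 : K < |Z j ω| := hω
      show K ≤ |Z j ω|
      exact h6.le
    refine lt_of_le_of_lt h5 (lt_of_lt_of_le ?_ hdδ)
    rw [← ENNReal.ofReal_toReal (measure_ne_top P {ω | K ≤ |Z j ω|})]
    exact (ENNReal.ofReal_lt_ofReal_iff hd0).2 h4
  have h7 : ∫⁻ ω in {ω | K < |Z j ω|}, ‖Z j ω‖ₑ ∂P ≤ ENNReal.ofReal ε := by
    have e1 : ∫⁻ ω in {ω | K < |Z j ω|}, ‖Z j ω‖ₑ ∂P =
        ENNReal.ofReal (∫ ω in {ω | K < |Z j ω|}, ‖Z j ω‖ ∂P) :=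
      (ofReal_integral_norm_eq_lintegral_enorm (hZ j).integrableOn).symm
    have e2 : ∫⁻ ω in {ω | K < |Z j ω|}, ‖X ω‖ₑ ∂P =
        ENNReal.ofReal (∫ ω in {ω | K < |Z j ω|}, ‖X ω‖ ∂P) :=
      (ofReal_integral_norm_eq_lintegral_enorm hX.integrableOn).symm
    calc ∫⁻ ω in {ω | K < |Z j ω|}, ‖Z j ω‖ₑ ∂P
        = ENNReal.ofReal (∫ ω in {ω | K < |Z j ω|}, ‖Z j ω‖ ∂P) := e1
      _ ≤ ENNReal.ofReal (∫ ω in {ω | K < |Z j ω|}, ‖X ω‖ ∂P) :=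
          ENNReal.ofReal_le_ofReal (h j K)
      _ = ∫⁻ ω in {ω | K < |Z j ω|}, ‖X ω‖ₑ ∂P := e2.symm
      _ ≤ ENNReal.ofReal ε := (hδs _ hsmall).le
  have h8 : {ω | (K + 1).toNNReal ≤ ‖Z j ω‖₊} ⊆ {ω | K < |Z j ω|} := by
    intro ω hω
    have h9 : (K + 1).toNNReal ≤ ‖Z j ω‖₊ := hω
    have h10 : K + 1 ≤ |Z j ω| := by
      have h11 : ((K + 1).toNNReal : ℝ) ≤ (‖Z j ω‖₊ : ℝ) := by exact_mod_cast h9
      rw [Real.coe_toNNReal _ (by linarith), coe_nnnorm, Real.norm_eq_abs] at h11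
      exact h11
    show K < |Z j ω|
    linarith
  calc eLpNorm ({ω | (K + 1).toNNReal ≤ ‖Z j ω‖₊}.indicator (Z j)) 1 P
      = ∫⁻ ω, ‖({ω | (K + 1).toNNReal ≤ ‖Z j ω‖₊}.indicator (Z j)) ω‖ₑ ∂P :=
        eLpNorm_one_eq_lintegral_enorm
    _ = ∫⁻ ω, ({ω | (K + 1).toNNReal ≤ ‖Z j ω‖₊}.indicator (fun ω => ‖Z j ω‖ₑ)) ω ∂P := by
        refine lintegral_congr fun ω => ?_
        exact enorm_indicator_eq_indicator_enorm _ _
    _ ≤ ∫⁻ ω in {ω | (K + 1).toNNReal ≤ ‖Z j ω‖₊}, ‖Z j ω‖ₑ ∂P := lintegral_indicator_le _ _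
    _ ≤ ∫⁻ ω in {ω | K < |Z j ω|}, ‖Z j ω‖ₑ ∂P := lintegral_mono_set h8
    _ ≤ ENNReal.ofReal ε := h7

theorem t_VIT : S_VIT := by
  intro Ω m P hP Z Z' X hZ hX h hlim
  have hUI := vit_ui P Z X hZ hX h
  have hZ' : Integrable Z' P := hUI.integrable_of_ae_tendsto hlim
  refine ⟨hZ', ?_⟩
  have h1 : Tendsto (fun n => eLpNorm (Z n - Z') 1 P) atTop (𝓝 0) :=
    tendsto_Lp_finite_of_tendsto_ae le_rfl ENNReal.one_ne_top
      (fun j => (hZ j).aestronglyMeasurable) (memLp_one_iff_integrable.2 hZ') hUI.2.1 hlim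
  have h2 : ∀ n, ∫ ω, |Z n ω - Z' ω| ∂P = (eLpNorm (Z n - Z') 1 P).toReal := by
    intro n
    rw [eLpNorm_one_eq_lintegral_enorm]
    exact integral_norm_eq_lintegral_enorm
      ((hZ n).aestronglyMeasurable.sub hZ'.aestronglyMeasurable)
  simp_rw [h2]
  have h3 := (ENNReal.tendsto_toReal ENNReal.zero_ne_top).comp h1
  rw [ENNReal.toReal_zero] at h3
  exact h3

end Run7.h118.RG
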